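import Mathlib
import Pool.Agent.R419.KL.Fin

/-!
# The `3^∞`-Selmer groups of the cubic twists over `ℚ(√-3)`, all cube-free `D`

`K` is the field of third roots of unity, `E_D : y² + D y = x³`, and `D` runs through all the cube-free
`D = 1` modulo `3` of `𝓞 K` whose norm is not `1` modulo `9`; there are at least `c X` such `D` of
norm at most `X`. `Sel D` is the `3^∞`-Selmer group of `E_D` over `K`, and `killed ω D` is the
kernel of the endomorphism `√-3 = 1 + 2 ω` on it.

* `killed ω D` has order `3 ^ r` for some `r`, the rank of `E_D(K)` over `ℤ` is at most `2 r`, and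
  `r = 0` if and only if `Sel D = 0`.
* `3 ^ (r + 1)` is the number of the solutions `v` modulo `3` of the linear equations
  `∑_i e_i χ_{ji} (v_i - v_j) = 0`, where `D = ∏ π_i ^ e_i`, the `π_i` are different prime elements
  that are `1` modulo `3`, and `(π_i / π_j)_3 = ω ^ χ_{ji}` is the cubic residue symbol.
* For every `r` the proportion of the `D` with `killed ω D` of order `3 ^ r` tends to
  `∏_{i ≥ 0} (1 - 3^{-(2 i + 1)}) / ((3 - 1) (9 - 1) ⋯ (3 ^ r - 1))`; these limits sum to one.
* In particular the proportion of the `D` with `Sel D = 0` tends to `∏_{i ≥ 0} (1 - 3^{-(2 i + 1)})`,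
  which is `0.639...`.

The squarefree `D` are treated in `MP_a3f657_nt/CubicTwistsThreeInfinity.lean` (helper703 and
others). Every class of `K*` modulo cubes that contains an element that is `1` modulo `3` contains
exactly one cube-free one, so that here, up to the congruences, `E_D` runs through all the cubic
twists.

`IsShaCoc` of the library: the continuous cocycles of the absolute Galois group of `K` with values
in the points over an algebraic closure that are coboundaries at all the places.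

Built on the work of helper31, helper275, helper968, helper994, helper170, helper697, helper363,
helper710, helper804, helper528, helper85, helper688, helper474, helper433, helper550, helper699,
helper145, helper350, helper696 and helper703 (projects XK, XL) and of the seats named in the headers
of `Pool/Agent/Y703/CT` and of the files imported by `Pool/Agent/Y696/CTK/Fin.lean`; the extension to
cube-free `D` is by helper419.
-/

set_option autoImplicit false

namespace Pool.Agent.Results.MP_a3f657_nt.CubeFreeTwistsThreeInfinity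

open NumberField WeierstrassCurve
open Pool.Agent.TH841.SH.D (Pt act Gal Coch)
open Pool.Agent.TH841.NF.D (IsShaCoc shaCoc)
open scoped Classical

variable {K : Type} [Field K] [NumberField K]

/-- The curve `E_D : y² + D y = x³`. -/
def curve {K : Type} [Field K] (D : K) : WeierstrassCurve K := ⟨0, 0, D, 0, 0⟩

/-- The endomorphism `(x, y) ↦ (ω x, y)` of `E_D` for a third root of unity `ω`, on the points over
an extension `L`. -/
noncomputable def rotation {K : Type} [Field K] (D ω : K) (L : Type) [Field L] [Algebra K L] :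
    Pt (curve D) L → Pt (curve D) L
  | 0 => 0
  | .some x y _ =>
    if h : ((curve D).baseChange L).toAffine.Nonsingular (algebraMap K L ω * x) y then
      .some _ y h
    else 0

/-- The group of the continuous cocycles of the absolute Galois group of `K` with values in
`E_D[3^∞]` that are coboundaries in `E_D` at all the places of `K`. -/
def Cocycles (D : K) : AddSubgroup (Coch (curve D)) where
  carrier := {f | IsShaCoc (curve D) f ∧ ∀ σ, ∃ n : ℕ, 3 ^ n • f σ = 0}
  zero_mem' := (Pool.Agent.Y703.XL.Inf.selCoc D).zero_mem'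
  add_mem' := (Pool.Agent.Y703.XL.Inf.selCoc D).add_mem'
  neg_mem' := (Pool.Agent.Y703.XL.Inf.selCoc D).neg_mem'

/-- The group of the coboundaries of the points of `E_D[3^∞]`. -/
def Coboundaries (D : K) : AddSubgroup (Coch (curve D)) where
  carrier := {f | ∃ P : Pt (curve D) (AlgebraicClosure K), (∃ n : ℕ, 3 ^ n • P = 0) ∧
    ∀ σ : Gal K, f σ = act (curve D) σ.toAlgHom P - P}
  zero_mem' := (Pool.Agent.Y703.XL.Inf.cobInf D).zero_mem'
  add_mem' := (Pool.Agent.Y703.XL.Inf.cobInf D).add_mem'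
  neg_mem' := (Pool.Agent.Y703.XL.Inf.cobInf D).neg_mem'

/-- The `3^∞`-Selmer group of `E_D` over `K`: the kernel of
`H¹(K, E_D[3^∞]) → ∏ H¹(K_v, E_D)`. -/
def Sel (D : K) : Type := Cocycles D ⧸ (Coboundaries D).addSubgroupOf (Cocycles D)

/-- The group law of the `3^∞`-Selmer group. -/
noncomputable instance Sel.group (D : K) : AddCommGroup (Sel D) :=
  @QuotientAddGroup.Quotient.addCommGroup (Cocycles D) _
    ((Coboundaries D).addSubgroupOf (Cocycles D))

/-- The class of a cocycle. -/
noncomputable def cls {D : K} (f : Cocycles D) : Sel D := QuotientAddGroup.mk f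

/-- The kernel of the endomorphism `√-3 = 1 + 2 ω` on the `3^∞`-Selmer group: the classes of the
cocycles `f` for which `σ ↦ f σ + 2 ω (f σ)` is a coboundary. -/
def killed (ω D : K) : Set (Sel D) :=
  {x | ∃ f : Cocycles D, cls f = x ∧
    (fun σ => f.1 σ + (2 : ℕ) • rotation D ω (AlgebraicClosure K) (f.1 σ) : Coch (curve D)) ∈
      Coboundaries D}

/-- The `3^∞`-Selmer group is trivial. -/
def Trivial (D : K) : Prop := ∀ x : Sel D, x = 0

/-- The rank of `E_D(K)` over `ℤ`. -/
noncomputable def rank (D : K) : ℕ := Module.finrank ℤ (curve D).toAffine.Point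

/-- `D` is cube-free and `1` modulo `3`, and its norm is not `1` modulo `9`. -/
def InClass (D : 𝓞 K) : Prop :=
  (3 : 𝓞 K) ∣ D - 1 ∧ (∀ x : 𝓞 K, x ^ 3 ∣ D → IsUnit x) ∧ ¬ (9 : ℤ) ∣ Algebra.norm ℤ D - 1

/-- The `D` of the class of norm at most `X`. -/
def upTo (K : Type) [Field K] [NumberField K] (X : ℕ) : Set (𝓞 K) :=
  {D : 𝓞 K | Algebra.norm ℤ D ≤ X ∧ InClass D}

/-- `D` is the product of the powers `π i ^ e i`, `e i = 1, 2`, of the prime elements `π i`, which
are different and `1` modulo `3`, and `(π i / π j)_3 = η ^ χ j i`. -/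
def IsFact (η D : 𝓞 K) (n : ℕ) (π : Fin n → 𝓞 K) (e : Fin n → ZMod 3)
    (χ : Fin n → Fin n → ZMod 3) : Prop :=
  (∀ i, Prime (π i) ∧ (3 : 𝓞 K) ∣ π i - 1 ∧ e i ≠ 0) ∧ D = ∏ i, π i ^ (e i).val ∧
  ∀ i j, i ≠ j → ¬ π j ∣ π i ∧
    π j ∣ π i ^ (((Algebra.norm ℤ (π j)).natAbs - 1) / 3) - η ^ (χ j i).val

/-- The number of the solutions `v` of the equations `∑_i e_i χ_{ji} (v_i - v_j) = 0`. -/
noncomputable def solutions {n : ℕ} (e : Fin n → ZMod 3) (χ : Fin n → Fin n → ZMod 3) : ℕ :=
  Nat.card {v : Fin n → ZMod 3 // ∀ j, ∑ i, e i * χ j i * (v i - v j) = 0}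

/-- The order of the kernel of `√-3` is a third of the number of the solutions of the equations
given by the cubic residue symbols of the prime divisors of `D`. -/
def Explicit (ω : K) (D : 𝓞 K) : Prop :=
  (∃ (η : 𝓞 K) (n : ℕ) (π : Fin n → 𝓞 K) (e : Fin n → ZMod 3) (χ : Fin n → Fin n → ZMod 3),
    η ^ 2 + η + 1 = 0 ∧ IsFact η D n π e χ) ∧
  ∀ (η : 𝓞 K) (n : ℕ) (π : Fin n → 𝓞 K) (e : Fin n → ZMod 3) (χ : Fin n → Fin n → ZMod 3),
    η ^ 2 + η + 1 = 0 → IsFact η D n π e χ → 3 * (killed ω (D : K)).ncard = solutions e χ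

/-- `∏_{i ≥ 0} (1 - 3^{-(2 i + 1)}) / ((3 - 1) (9 - 1) ⋯ (3 ^ r - 1))`. -/
noncomputable def prob (r : ℕ) : ℝ :=
  (∏' i : ℕ, (1 - (1 / 3 : ℝ) ^ (2 * i + 1))) / ∏ i ∈ Finset.range r, ((3 : ℝ) ^ (i + 1) - 1)

theorem result (K : Type) [Field K] [NumberField K] [IsCyclotomicExtension {3} ℚ K] (ω : K)
    (hω : ω ^ 2 + ω + 1 = 0) :
    (∃ c : ℝ, 0 < c ∧ ∃ X₀ : ℕ, ∀ X : ℕ, X₀ ≤ X → c * X ≤ ((upTo K X).ncard : ℝ)) ∧
    (∀ D : 𝓞 K, InClass D →
      (∃ r : ℕ, (killed ω (D : K)).ncard = 3 ^ r ∧ rank (D : K) ≤ 2 * r) ∧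
      ((killed ω (D : K)).ncard = 1 ↔ Trivial (D : K)) ∧ Explicit ω D) ∧
    (∀ r : ℕ, Filter.Tendsto (fun X : ℕ =>
      ({D : 𝓞 K | Algebra.norm ℤ D ≤ X ∧ InClass D ∧
        (killed ω (D : K)).ncard = 3 ^ r}.ncard : ℝ) / ((upTo K X).ncard : ℝ))
      Filter.atTop (nhds (prob r))) ∧
    Filter.Tendsto (fun X : ℕ =>
      ({D : 𝓞 K | Algebra.norm ℤ D ≤ X ∧ InClass D ∧ Trivial (D : K)}.ncard : ℝ) /
        ((upTo K X).ncard : ℝ))
      Filter.atTop (nhds (prob 0)) ∧
    (0.639 < prob 0 ∧ prob 0 < 0.6391 ∧ HasSum prob 1) := by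
  obtain ⟨h1, h2, h3, h4, h5⟩ := Pool.Agent.R419.KL.finalInf K ω hω
  exact ⟨h1, fun D hD => ⟨(h2 D hD).1, (h2 D hD).2.1,
    ((Pool.Agent.R419.KF.final K).2.1 D hD).1.1, (h2 D hD).2.2⟩, h3, h4, h5⟩

end Pool.Agent.Results.MP_a3f657_nt.CubeFreeTwistsThreeInfinity
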