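import Pool.Agent.R432.JG.Common

/-!
# The `3 ^ ∞`-Selmer groups of the `3 ^ n` cubic twists of a curve by `n` primes are independent

`E_D : y² + D y = x³` over `ℚ` (`3`-isogenous to `x³ + y³ = D`).  `M` is any finite set of primes
`≡ 1` modulo `9`, `n = #M`.  `D` runs through the squarefree numbers, prime to `3` and to `M`, not `±1`
modulo `9`, that are divisible by exactly one prime `2` modulo `3`, ordered by size.  For an exponent
vector `t ∈ {0, 1, 2} ^ M` let `D_t = D ∏_{l ∈ M} l^{t_l}`; the `3 ^ n` curves `E_{D_t}` are cubic twists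
of `E_D`.  We prove that the `3 ^ n` events

`0 → E_{D_t}(ℚ) ⊗ ℚ₃/ℤ₃ → Sel_{3^∞}(E_{D_t}) → Ш(E_{D_t})[3^∞] → 0` is the zero sequence

(that is, `E_{D_t}(ℚ)` is finite and `Ш(E_{D_t})[3^∞] = 0`) are independent in the limit, each of
probability `c = ∏_{i ≥ 1} (1 - 3^{-i}) = 0.5601...`: for all disjoint sets `G`, `H` of exponent vectors
the proportion of the `D` for which the sequence of `E_{D_t}` is zero for `t ∈ G` and not zero for
`t ∈ H` tends to `c ^ #G (1 - c) ^ #H`.

The proof.  (1) By the library (project CT) the sequence is zero if and only if `D_t` has no splitting,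
that is, if and only if the Laplacian over `𝔽₃` of the weighted graph of the cubic residue symbols of
the prime factors of `D_t` has corank one.  (2) THE JOINT LAW (project JL): these `3 ^ n` matrices have in
common almost all their entries; their antisymmetric parts and their borders differ, for most `D`, in
many entries that are determined by the symbols of `l ∈ M` modulo the prime factors of `D`; an abstract
theorem on matrices over `𝔽₃` with the same random part shows that the events `corank = 0` are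
independent in the limit.  This is combined with the equidistribution of the symbols of the large
primes (bilinear sums) as in project CX.  (3) Inclusion and exclusion.

Authors of the parts of project JL: helper962 (matrices), helper159 (matrices of symbols), helper152
(sieve), helper916 (boxes), helper258 (asymptotics), helper432 (the others).
-/

set_option autoImplicit false

namespace Pool.Agent.Results.MP_a3f657_nt.IndependentCubicTwists

open Filter Topology
open scoped Classical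

/-- The curve `E_D : y² + D y = x³` over `ℚ`. -/
def E (D : ℕ) : WeierstrassCurve ℚ := ⟨0, 0, (D : ℚ), 0, 0⟩

/-- `D` is squarefree, not divisible by `3`, not `±1` modulo `9`, not divisible by the elements of `M`,
and divisible by exactly one prime that is `2` modulo `3`. -/
def InClass (M : Finset ℕ) (D : ℕ) : Prop :=
  Squarefree D ∧ ¬ 3 ∣ D ∧ D % 9 ≠ 1 ∧ D % 9 ≠ 8 ∧ (∀ l ∈ M, ¬ l ∣ D) ∧
    ∃ q : ℕ, q.Prime ∧ q % 3 = 2 ∧ q ∣ D ∧ ∀ p : ℕ, p.Prime → p ∣ D → p ≠ q → p % 3 = 1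

/-- The number `D_t = D ∏_{l ∈ M} l ^ (t l)`, with exponents `0`, `1`, `2`. -/
def twist (M : Finset ℕ) (D : ℕ) (t : {l : ℕ // l ∈ M} → ZMod 3) : ℕ :=
  D * ∏ l : {l : ℕ // l ∈ M}, l.1 ^ (t l).val

/-- `E_D(ℚ)` is finite and `Ш(E_D)[3^∞] = 0`: all the terms of the sequence
`0 → E_D(ℚ) ⊗ ℚ₃/ℤ₃ → Sel_{3^∞}(E_D) → Ш(E_D)[3^∞] → 0` are zero. -/
def ZeroSeq (D : ℕ) : Prop :=
  Finite (E D).toAffine.Point ∧
    ∀ (n : ℕ) (x : Pool.Agent.TH841.SH.D.Sha (E D)), 3 ^ n • x = 0 → x = 0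

/-- In every factorization of `D` in coprime factors `d₀ d₁ d₂` for which `d₁ d₂²`, `d₂ d₀²`,
`d₀ d₁²` are cubes modulo the primes dividing `d₀`, `d₁`, `d₂` respectively, two factors are `1`. -/
def HasNoSplitting (D : ℕ) : Prop :=
  ∀ d : ZMod 3 → ℕ, ∏ c, d c = D → (∀ c c', c ≠ c' → Nat.Coprime (d c) (d c')) →
    (∀ (c : ZMod 3) (p : ℕ), p.Prime → p ∣ d c →
      ∃ x : ℤ, (p : ℤ) ∣ (d (c + 1) : ℤ) * (d (c + 2) : ℤ) ^ 2 - x ^ 3) →
    ∃ c, ∀ c', c' ≠ c → d c' = 1

/-- The number of the `D ≤ X` in the class with the property `Q`. -/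
noncomputable def num (M : Finset ℕ) (Q : ℕ → Prop) (X : ℕ) : ℕ :=
  ((Finset.Icc 1 X).filter fun D => InClass M D ∧ Q D).card

/-- `c = ∏_{i ≥ 1} (1 - 3^{-i})`. -/
noncomputable def c : ℝ := ∏' i : ℕ, (1 - (1 / 3 : ℝ) ^ (i + 1))

section proof

open Pool.Agent.R432.JG (Cl cl_iff triv_iff tw_cls pre_of law_cnt pat_aux low twN)
open Pool.Agent.R413.MQ.Bin (cnt cnt_card cnt_congr)

theorem zero_iff {M : Finset ℕ} (hM : ∀ l ∈ M, l.Prime ∧ l % 9 = 1) {D : ℕ} (hD : Cl M D)
    (t : {l : ℕ // l ∈ M} → ZMod 3) : ZeroSeq (twist M D t) ↔ HasNoSplitting (twist M D t) :=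
  triv_iff (tw_cls (t := t) hD.2.1 (pre_of hM hD))

theorem num_eq (M : Finset ℕ) (Q : ℕ → Prop) (X : ℕ) : num M Q X = cnt (Cl M) Q X := by
  unfold num
  symm
  refine cnt_card fun D => ?_
  rw [Finset.mem_filter, show InClass M D ↔ Cl M D from (cl_iff M D).symm]

theorem law {M : Finset ℕ} (hM : ∀ l ∈ M, l.Prime ∧ l % 9 = 1)
    {G H : Finset ({l : ℕ // l ∈ M} → ZMod 3)} (hGH : Disjoint G H) :
    Tendsto (fun X : ℕ => (num M (fun D => (∀ t ∈ G, ZeroSeq (twist M D t)) ∧
      ∀ t ∈ H, ¬ ZeroSeq (twist M D t)) X : ℝ) / (num M (fun _ => True) X : ℝ)) atTop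
      (𝓝 (c ^ G.card * (1 - c) ^ H.card)) := by
  have h := pat_aux (G := fun (t : {l : ℕ // l ∈ M} → ZMod 3) D =>
    Pool.Agent.Y703.CT.NoSplit (twN D M t)) (Fam := Cl M) (law_cnt hM) H G hGH
  refine h.congr fun X => ?_
  rw [num_eq, num_eq]
  congr 2
  refine cnt_congr (fun D hD => ?_) X
  have h1 : ∀ t, ZeroSeq (twist M D t) ↔ Pool.Agent.Y703.CT.NoSplit (twN D M t) :=
    fun t => zero_iff hM hD t
  simp only [h1]

end proof

open Pool.Agent.R432.JG (Cl cl_iff)

/-- **Main theorem.** -/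
theorem result (M : Finset ℕ) (hM : ∀ l ∈ M, l.Prime ∧ l % 9 = 1) :
    (∀ D : ℕ, InClass M D → ∀ t : {l : ℕ // l ∈ M} → ZMod 3,
      (ZeroSeq (twist M D t) ↔ HasNoSplitting (twist M D t))) ∧
    (0.56 : ℝ) < c ∧ c < 1 ∧
    ∀ G H : Finset ({l : ℕ // l ∈ M} → ZMod 3), Disjoint G H →
      Tendsto (fun X : ℕ => (num M (fun D => (∀ t ∈ G, ZeroSeq (twist M D t)) ∧
        ∀ t ∈ H, ¬ ZeroSeq (twist M D t)) X : ℝ) / (num M (fun _ => True) X : ℝ)) atTop
        (𝓝 (c ^ G.card * (1 - c) ^ H.card)) ∧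
      ∃ a : ℝ, 0 < a ∧ ∃ X₀ : ℕ, ∀ X : ℕ, X₀ ≤ X → a * X / Real.sqrt (Real.log X) ≤
        (num M (fun D => (∀ t ∈ G, ZeroSeq (twist M D t)) ∧
          ∀ t ∈ H, ¬ ZeroSeq (twist M D t)) X : ℝ) := by
  have hc1 : (0.56 : ℝ) < c := Pool.Agent.R432.JG.c3_gt
  have hc2 : c < 1 := Pool.Agent.Y461.CX.t_C3.2.2.1
  refine ⟨fun D hD t => zero_iff hM ((cl_iff M D).2 hD) t, hc1, hc2, fun G H hGH =>
    ⟨law hM hGH, ?_⟩⟩
  have h1 := law hM hGH
  have hp : 0 < c ^ G.card * (1 - c) ^ H.card := by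
    have k1 : 0 < c := by linarith
    have k2 : 0 < 1 - c := by linarith
    positivity
  obtain ⟨c₀, hc₀, X₀, hlow⟩ := Pool.Agent.R432.JG.low hM
  have hev := h1.eventually (lt_mem_nhds (show c ^ G.card * (1 - c) ^ H.card / 2 <
    c ^ G.card * (1 - c) ^ H.card by linarith))
  obtain ⟨X₁, hX₁⟩ := Filter.eventually_atTop.1 (hev.and (Pool.Agent.R432.JG.ev_pos hM))
  refine ⟨c ^ G.card * (1 - c) ^ H.card / 2 * c₀, by positivity, max X₀ X₁, fun X hX => ?_⟩
  obtain ⟨h2, h3⟩ := hX₁ X ((le_max_right _ _).trans hX)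
  have h4 := hlow X ((le_max_left _ _).trans hX)
  have e2 : (num M (fun _ => True) X : ℝ) =
      (((Finset.Icc 1 X).filter fun D => Cl M D).card : ℝ) := by
    have : num M (fun _ => True) X = ((Finset.Icc 1 X).filter fun D => Cl M D).card := by
      rw [num_eq]
      refine Pool.Agent.R413.MQ.Bin.cnt_card fun D => ?_
      rw [Finset.mem_filter, and_iff_left trivial]
    rw [this]
  rw [e2, lt_div_iff₀ h3] at h2
  have h5 : c ^ G.card * (1 - c) ^ H.card / 2 * c₀ * X / Real.sqrt (Real.log X) =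
      c ^ G.card * (1 - c) ^ H.card / 2 * (c₀ * X / Real.sqrt (Real.log X)) := by ring
  rw [h5]
  refine (mul_le_mul_of_nonneg_left h4 (by linarith)).trans ?_
  exact h2.le

end Pool.Agent.Results.MP_a3f657_nt.IndependentCubicTwists
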