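import Pool.Agent.R338.EQ.SplitLaw
import Pool.Agent.R338.EQ.X14a
import Pool.Agent.Results.MP_a3f657_nt.TrivialSelInfTwists

/-!
# `2 ^ ∞`-Selmer groups of the twists of `X_0(14)` by products of a fixed number of random primes

Let `n` residue classes modulo `56` be given, each of them consisting of primes that split completely
in `ℚ(√-1, √2, √-7)` or of primes inert in `ℚ(√2)` and in `ℚ(√-7)`, an even number of the latter
being `5` modulo `8`. For the tuples of distinct primes `p_i ≤ X_i` in these classes let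
`D = ± p_1 ⋯ p_n ≡ 1 (mod 4)`, and let `E^D` be the twist of the non-CM curve `X_0(14)` by `D`.
We determine how often the sequence
`0 → E^D(ℚ) ⊗ ℚ₂/ℤ₂ → Sel_{2 ^ ∞}(E^D) → Ш(E^D)[2 ^ ∞] → 0` is zero. Let
`P m = ∏_{i < (m+1)/2} (1 - 2^{-(2i+1)})`, the proportion of the nonsingular matrices among the
symmetric `m × m` matrices over `𝔽₂`; it tends to `∏_{i ≥ 1} (1 - 2^{1 - 2 i}) = 0.4194...`, twice
the probability of the zero sequence in the model of Bhargava, Kane, Lenstra, Poonen and Rains.
* If `s` of the classes are split and the others are inert, at least one, the proportion is `P s`.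
* If all classes are split, then it is `P (n - 1)` for the tuples such that the number of the `i` with
  `8 ∤ #X_0(14)(𝔽_{p_i})` is odd, `P (n - 2)` for those for which it is even and positive, and `0` for
  those for which it is zero.
This holds up to a relative error `C z^{-1/24}`, where `z` is the least of the `X_i`, all `X_i` being
at most `exp(z^{1/(24n)})`.

The criterion for a single `D` is that of the starting file `TrivialSelInfTwists` (helper17, helper687,
helper700 and their teams); the bilinear estimate for quadratic symbols is of helper710, the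
equidistribution of the symbols of helper356, the linear algebra of helpers 219 and 839.
-/

set_option autoImplicit false

open Finset Function Filter

namespace Pool.Agent.Results.MP_a3f657_nt.RandomTwists

open Pool.Agent.Results.MP_a3f657_nt.TrivialSelInfTwists (E ZeroSeq N Adm)

/-- a class of primes congruent to `1` modulo `8` that split in `ℚ(√-7)` -/
def SplitClass (a : ℕ) : Prop := a % 8 = 1 ∧ (a % 7 = 1 ∨ a % 7 = 2 ∨ a % 7 = 4)

/-- a class of primes inert in `ℚ(√2)` and in `ℚ(√-7)` -/
def InertClass (a : ℕ) : Prop := (a % 8 = 3 ∨ a % 8 = 5) ∧ (a % 7 = 3 ∨ a % 7 = 5 ∨ a % 7 = 6)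

open Classical in
/-- the number of the split classes -/
noncomputable def splitCount {n : ℕ} (a : Fin n → ℕ) : ℕ := (univ.filter fun i => SplitClass (a i)).card

open Classical in
/-- split or inert classes, an even number of them `5` modulo `8` -/
def Classes {n : ℕ} (a : Fin n → ℕ) : Prop :=
  (∀ i, SplitClass (a i) ∨ InertClass (a i)) ∧ Even (univ.filter fun i => a i % 8 = 5).card

open Classical in
/-- the tuples of distinct primes `p_i ≤ X_i`, `p_i ≡ a_i` modulo `56`, `p_i ≠ 3` -/
noncomputable def Box {n : ℕ} (a X : Fin n → ℕ) : Finset (Fin n → ℕ) :=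
  (Fintype.piFinset fun i => (range (X i + 1)).filter fun p =>
    p.Prime ∧ p ≠ 3 ∧ p % 56 = a i % 56).filter Injective

/-- the discriminant `± p_1 ⋯ p_n ≡ 1 (mod 4)` -/
def disc {n : ℕ} (p : Fin n → ℕ) : ℤ :=
  if (∏ i, p i) % 4 = 1 then ((∏ i, p i : ℕ) : ℤ) else -((∏ i, p i : ℕ) : ℤ)

/-- the proportion `∏_{i < (m+1)/2} (1 - 2^{-(2i+1)})` of the nonsingular symmetric matrices -/
noncomputable def P (m : ℕ) : ℝ := ∏ i ∈ range ((m + 1) / 2), (1 - (1 / 2 : ℝ) ^ (2 * i + 1))

open Classical in
/-- the number of the tuples of the box for which the sequence is zero -/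
noncomputable def zeros {n : ℕ} (a X : Fin n → ℕ) : ℕ :=
  ((Box a X).filter fun p => ZeroSeq (disc p)).card

open Classical in
/-- the number of the `i` for which the number of the points of `X_0(14)` modulo `p_i` is not
divisible by `8` -/
noncomputable def free {n : ℕ} (p : Fin n → ℕ) : ℕ := (univ.filter fun i => ¬ 8 ∣ N (p i)).card

open Classical in
/-- the number of the tuples of the box for which `free` is odd -/
noncomputable def odd {n : ℕ} (a X : Fin n → ℕ) : ℕ := ((Box a X).filter fun p => Odd (free p)).card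

open Classical in
/-- the number of the tuples of the box for which `free` is even and positive -/
noncomputable def even {n : ℕ} (a X : Fin n → ℕ) : ℕ :=
  ((Box a X).filter fun p => Even (free p) ∧ free p ≠ 0).card

theorem mem_Box {n : ℕ} {a X : Fin n → ℕ} {p : Fin n → ℕ} : p ∈ Box a X ↔
    (∀ i, p i ≤ X i ∧ (p i).Prime ∧ p i ≠ 3 ∧ p i % 56 = a i % 56) ∧ Injective p := by
  unfold Box
  rw [mem_filter, Fintype.mem_piFinset]
  refine and_congr_left fun _ => forall_congr' fun i => ?_
  rw [mem_filter, mem_range]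
  exact and_congr_left fun _ => by omega

theorem natAbs_disc {n : ℕ} (p : Fin n → ℕ) : (disc p).natAbs = ∏ i, p i := by
  unfold disc
  split_ifs
  · exact Int.natAbs_natCast _
  · rw [Int.natAbs_neg]
    exact Int.natAbs_natCast _

theorem primeFactors_disc {n : ℕ} {a X : Fin n → ℕ} {p : Fin n → ℕ} (hp : p ∈ Box a X) :
    (disc p).natAbs.primeFactors = univ.image p := by
  rw [mem_Box] at hp
  rw [natAbs_disc]
  have h : ∏ i, p i = ∏ q ∈ univ.image p, q := by
    rw [prod_image fun x _ y _ h => hp.2 h]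
  rw [h]
  refine Nat.primeFactors_prod fun q hq => ?_
  obtain ⟨i, -, rfl⟩ := mem_image.1 hq
  exact (hp.1 i).2.1

theorem sqf {n : ℕ} {p : Fin n → ℕ} (hp : ∀ i, (p i).Prime) (hi : Injective p) :
    Squarefree (∏ i, p i) := by
  refine Finset.squarefree_prod_of_pairwise_isCoprime (fun i _ j _ hij => ?_)
    fun i _ => (hp i).squarefree
  exact Nat.coprime_iff_isRelPrime.1
    ((Nat.coprime_primes (hp i) (hp j)).2 fun h => hij (hi h))

theorem cop {a : ℕ} (h1 : ¬ 2 ∣ a) (h2 : ¬ 7 ∣ a) : Nat.Coprime a 56 := by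
  have h3 : Nat.Coprime a 2 := ((Nat.Prime.coprime_iff_not_dvd (by norm_num)).2 h1).symm
  have h4 : Nat.Coprime a 7 := ((Nat.Prime.coprime_iff_not_dvd (by norm_num)).2 h2).symm
  have h5 : (56 : ℕ) = 2 ^ 3 * 7 := by norm_num
  rw [h5]
  exact Nat.Coprime.mul_right (Nat.Coprime.pow_right 3 h3) h4

theorem sqf_disc {n : ℕ} {a X : Fin n → ℕ} {p : Fin n → ℕ} (hp : p ∈ Box a X) :
    Squarefree (∏ i, p i) := by
  rw [mem_Box] at hp
  exact sqf (fun i => (hp.1 i).2.1) hp.2

theorem family {n : ℕ} {a X : Fin n → ℕ} (ha : Classes a) {p : Fin n → ℕ} (hp : p ∈ Box a X) :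
    Adm (disc p) := by
  have hpf := primeFactors_disc hp
  rw [natAbs_disc] at hpf
  have hb := mem_Box.1 hp
  obtain ⟨h1, h3⟩ := ha
  have hS : ∀ r : ℕ, (univ.image p).filter (fun q => q % 8 = r) =
      (univ.filter fun i => a i % 8 = r).image p := by
    intro r
    ext q
    simp only [mem_filter, mem_image, mem_univ, true_and]
    constructor
    · rintro ⟨⟨i, rfl⟩, h⟩
      have := (hb.1 i).2.2.2
      exact ⟨i, by omega, rfl⟩
    · rintro ⟨i, hi, rfl⟩
      have := (hb.1 i).2.2.2
      exact ⟨⟨i, rfl⟩, by omega⟩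
  have hcl : Y703.CQ.Cl {3, 5} {0, 1} (∏ i, p i).primeFactors := by
    rw [hpf]
    refine ⟨?_, ?_, ?_⟩
    · intro q hq
      obtain ⟨i, -, rfl⟩ := mem_image.1 hq
      obtain ⟨k1, k2, k3, k4⟩ := hb.1 i
      rcases h1 i with h | h
      · refine Or.inl ⟨k2, ?_, ?_⟩
        · have := h.1
          omega
        · have := h.2
          omega
      · refine Or.inr ⟨k2, k3, ?_, ?_⟩
        · have := h.1
          rw [mem_insert, mem_singleton]
          omega
        · have := h.2
          omega
    · have h5 := hS 5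
      have e : ((univ.image p).filter fun q => q % 8 = 5).card =
          (univ.filter fun i => a i % 8 = 5).card := by
        rw [h5, card_image_of_injective _ hb.2]
      rw [e]
      rw [Nat.even_iff] at h3
      convert h3 using 3
    · rw [mem_insert, mem_singleton]
      omega
  obtain ⟨D, hD, hDn⟩ := Y703.CQ.cl_adm (sqf_disc hp) hcl
  have e : D = disc p := by
    have h4 := hD.2.1
    have h5 : (D.natAbs : ℤ) = ((∏ i, p i : ℕ) : ℤ) := by rw [hDn]
    unfold disc
    split_ifs with h
    · omega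
    · omega
  rw [← e]
  exact hD

theorem N_eq (p : ℕ) : N p = Y687.NN 1 p := by
  unfold N Y687.NN Y687.cnt TrivialSelInfTwists.A TrivialSelInfTwists.B
  rw [add_comm]
  norm_num

theorem zero_iff {D : ℤ} (hD : Adm D) : ZeroSeq D ↔ (Y687.MQ.matD D).det ≠ 0 := by
  have hRm : TrivialSelInfTwists.R D = Y687.MQ.matD D := by
    unfold TrivialSelInfTwists.R Y687.MQ.matD
    ext i j
    simp only [Matrix.of_apply, N_eq]
    rfl
  rw [← hRm]
  exact (TrivialSelInfTwists.result.1 D hD).2

theorem ff_iff (p : ℕ) : Y703.CQ.ff p ≠ 0 ↔ ¬ 8 ∣ N p := by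
  unfold Y703.CQ.ff
  rw [N_eq]
  by_cases h : 8 ∣ Y687.NN 1 p
  · rw [if_pos h]
    simp [h]
  · rw [if_neg h]
    simp [h]

open Classical in
theorem result (n : ℕ) (hn : 0 < n) (a : Fin n → ℕ) (ha : Classes a) :
    (∀ X : Fin n → ℕ, ∀ p ∈ Box a X, Adm (disc p) ∧ (disc p).natAbs = ∏ i, p i) ∧
    ((∃ i, InertClass (a i)) →
      ∃ C : ℝ, ∀ (X : Fin n → ℕ) (z : ℕ), 2 ≤ z → (∀ i, z ≤ X i) →
        (∀ i, Real.log (X i) ≤ (z : ℝ) ^ (1 / (24 * n : ℝ))) →
        |(zeros a X : ℝ) - P (splitCount a) * ((Box a X).card : ℝ)| ≤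
          C * (z : ℝ) ^ (-(1 / 24 : ℝ)) * ((Box a X).card : ℝ)) ∧
    ((∀ i, SplitClass (a i)) →
      ∃ C : ℝ, ∀ (X : Fin n → ℕ) (z : ℕ), 2 ≤ z → (∀ i, z ≤ X i) →
        (∀ i, Real.log (X i) ≤ (z : ℝ) ^ (1 / (24 * n : ℝ))) →
        |(zeros a X : ℝ) - (P (n - 1) * (odd a X : ℝ) + P (n - 2) * (even a X : ℝ))| ≤
          C * (z : ℝ) ^ (-(1 / 24 : ℝ)) * ((Box a X).card : ℝ)) ∧
    ∃ c : ℝ, 0.4194 < c ∧ c < 0.4195 ∧ Tendsto P atTop (nhds c) := by
  have hz : ∀ X : Fin n → ℕ, ∀ p ∈ Box a X,
      (ZeroSeq (disc p) ↔ (Y687.MQ.matD (disc p)).det ≠ 0) :=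
    fun X p hp => zero_iff (family ha hp)
  have hcop : ∀ i, Nat.Coprime (a i) 56 := by
    intro i
    have h1 : ¬ 2 ∣ a i := by
      rcases ha.1 i with h | h
      · have := h.1
        omega
      · have := h.1
        omega
    have h2 : ¬ 7 ∣ a i := by
      rcases ha.1 i with h | h
      · have := h.2
        omega
      · have := h.2
        omega
    exact cop h1 h2
  refine ⟨fun X p hp => ⟨family ha hp, natAbs_disc p⟩, ?_, ?_, ?_⟩
  · rintro ⟨i0, hi0⟩
    have hin : ∃ i, a i % 8 ≠ 1 := ⟨i0, by
      have := hi0.1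
      omega⟩
    obtain ⟨C, -, h⟩ := Pool.Agent.R338.EQ.x14 a hcop hin
    refine ⟨C, fun X z hz2 hzX hlog => ?_⟩
    have key := h Y703.CQ.ff X z hz2 hzX hlog
    have eB : ((Fintype.piFinset fun i => Pool.Agent.R338.EQ.cls (a i) (X i)).filter
        fun p => Injective p) = Box a X := by
      unfold Box Pool.Agent.R338.EQ.cls
      ext p
      simp only [mem_filter, Fintype.mem_piFinset]
    have eG : ((Fintype.piFinset fun i => Pool.Agent.R338.EQ.cls (a i) (X i)).filter fun p =>
        Injective p ∧ Y703.CQ.Gd Y703.CQ.ff (univ.image p)).card = zeros a X := by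
      rw [← filter_filter, eB]
      unfold zeros
      congr 1
      refine filter_congr fun p hp => ?_
      rw [hz X p hp, Y703.CQ.gd_iff, primeFactors_disc hp]
    have eS : (univ.filter fun i => a i % 8 = 1).card = splitCount a := by
      unfold splitCount
      congr 1
      refine filter_congr fun i _ => ?_
      constructor
      · intro hi
        rcases ha.1 i with h' | h'
        · exact h'
        · have := h'.1
          omega
      · exact fun hi => hi.1
    rw [eG, eB, eS] at key
    exact key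
  · intro hs
    obtain ⟨C, -, h⟩ := Pool.Agent.R338.EQ.split_law hn (by norm_num : 0 < 56) (by norm_num) a hcop
      (fun i => (hs i).1)
    refine ⟨C, fun X z hz2 hzX hlog => ?_⟩
    have key := h X z hz2 hzX hlog
    have eB : ((Fintype.piFinset fun i => Pool.Agent.R338.EQ.clsM 56 (a i) (X i)).filter
        fun p => Injective p) = Box a X := by
      unfold Box Pool.Agent.R338.EQ.clsM
      ext p
      simp only [mem_filter, Fintype.mem_piFinset]
      refine and_congr_left fun _ => forall_congr' fun i => and_congr_right fun _ => ?_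
      refine and_congr_right fun _ => ⟨fun h' => ⟨?_, h'⟩, fun h' => h'.2⟩
      have := (hs i).1
      omega
    have hff : ∀ p : Fin n → ℕ, (univ.filter fun i => Y703.CQ.ff (p i) ≠ 0).card = free p := by
      intro p
      unfold free
      congr 1
      exact filter_congr fun i _ => ff_iff (p i)
    simp only [hff] at key
    rw [← filter_filter, ← filter_filter, ← filter_filter, eB] at key
    have eZ : ((Box a X).filter fun p => (Pool.Agent.R338.EQ.symMat (Pool.Agent.R338.EQ.symG p)
        (fun i => Y703.CQ.ff (p i)) univ).det ≠ 0).card = zeros a X := by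
      unfold zeros
      congr 1
      refine filter_congr fun p hp => ?_
      have hb := mem_Box.1 hp
      rw [hz X p hp, Pool.Agent.R338.EQ.det_iff hb.2 (fun i => ⟨(hb.1 i).2.1, by
        have h1 := (hb.1 i).2.2.2
        have h2 := (hs i).1
        omega⟩) univ (primeFactors_disc hp)]
    rw [eZ] at key
    exact key
  · obtain ⟨hC, -, -, hc1, hc2⟩ := Y948.CQ.t_C2
    refine ⟨Y703.CQ.c2, hc1, hc2, ?_⟩
    have h1 : Tendsto (fun m : ℕ => ∏ i ∈ range m, (1 - (1 / 2 : ℝ) ^ (2 * i + 1))) atTop
        (nhds Y703.CQ.c2) := by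
      rw [tendsto_iff_norm_sub_tendsto_zero]
      refine squeeze_zero (fun n => norm_nonneg _) (fun n => ?_)
        (tendsto_pow_atTop_nhds_zero_of_lt_one (by norm_num : (0 : ℝ) ≤ 1 / 4)
          (by norm_num : (1 / 4 : ℝ) < 1))
      rw [Real.norm_eq_abs]
      exact hC n
    have h2 : Tendsto (fun m : ℕ => (m + 1) / 2) atTop atTop := by
      refine tendsto_atTop_atTop.2 fun b => ⟨2 * b, fun m hm => ?_⟩
      omega
    exact h1.comp h2

end Pool.Agent.Results.MP_a3f657_nt.RandomTwists
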