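import Mathlib
import Pool.Agent.R421.EK.Mob4

/-!
# The `2 ^ ∞`-Selmer groups of the curves with a rational cyclic subgroup of order four

The elliptic curves over `ℚ` with a rational cyclic subgroup of order `4`, up to isomorphism, ordered
by the height `max (|A|³, |B|²)` of the minimal model `y² = x³ + A x + B`, and their quadratic twists
by different square classes `D_1, …, D_n`.

The binary logarithm of the order of the group `Sel_{2 ^ ∞}(E)[2 ^ j]` has a Gaussian law of mean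
`(3 / 2) log log Z` and variance `(5 / 2) log log Z`, and those of the twists are jointly Gaussian with
the covariances `(9 / 4) log log Z`. Therefore the density of the curves with a given `2 ^ ∞`-Selmer
group, hence with a given exact sequence, is zero. But the corank of `Sel_{2 ^ ∞}(E)` and the rank are
bounded by `R(ε)` outside a proportion `ε` of the curves, and so is the whole
`2 ^ ∞`-Selmer group of the quotient of `E` by its point of order two.
-/

set_option autoImplicit false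

namespace Pool.Agent.Results.MP_a3f657_nt.SelmerInfFourIsogeny

open Filter Topology ProbabilityTheory

open Pool.Agent.Y667.BK (SelInf)

/-- the curve `y² = x³ + A x + B` over `ℚ` -/
def E (A B : ℤ) : WeierstrassCurve ℚ := ⟨0, 0, 0, (A : ℚ), (B : ℚ)⟩

/-- the coefficient `A = N² - 3 e²`, `t = (e, N)` -/
def cA (t : ℤ × ℤ) : ℤ := t.2 ^ 2 - 3 * t.1 ^ 2

/-- the coefficient `B = 2 e³ - N² e`, `t = (e, N)` -/
def cB (t : ℤ × ℤ) : ℤ := 2 * t.1 ^ 3 - t.2 ^ 2 * t.1

/-- The pairs `t = (e, N)` such that `y² = x³ + A x + B`, `A = cA t`, `B = cB t`, is nonsingular, there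
is no prime `p` with `p⁴ ∣ A` and `p⁶ ∣ B`, and the height `max (|A|³, |B|²)` is at most `Z`: the
elliptic curves over `ℚ` of height at most `Z`, up to isomorphism, together with a rational cyclic
subgroup of order four (see `marked`). -/
def Fam (Z : ℕ) : Set (ℤ × ℤ) :=
  {t | 4 * cA t ^ 3 + 27 * cB t ^ 2 ≠ 0 ∧
    (∀ p : ℕ, p.Prime → ¬ ((p : ℤ) ^ 4 ∣ cA t ∧ (p : ℤ) ^ 6 ∣ cB t)) ∧
    |cA t| ^ 3 ≤ Z ∧ |cB t| ^ 2 ≤ Z}

/-- `A = cA (e, N)` and `B = cB (e, N)` if and only if `e` is a root of `x³ + A x + B` and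
`3 e² + A = N²`. (Then the points with abscissa `e + N` have order four, their double is `(e, 0)`.) -/
theorem marked (A B e N : ℤ) :
    (A = cA (e, N) ∧ B = cB (e, N)) ↔ (e ^ 3 + A * e + B = 0 ∧ 3 * e ^ 2 + A = N ^ 2) := by
  unfold cA cB
  constructor
  · rintro ⟨rfl, rfl⟩
    constructor <;> ring
  · rintro ⟨h1, h2⟩
    have hA : A = N ^ 2 - 3 * e ^ 2 := by linarith
    refine ⟨hA, ?_⟩
    rw [hA] at h1
    linarith

/-- the twist by `D` of the curve `y² = x³ + A x + B`, `A = cA t`, `B = cB t`: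
`y² = x³ + D² A x + D³ B` -/
def twist (D : ℤ) (t : ℤ × ℤ) : WeierstrassCurve ℚ := E (D ^ 2 * cA t) (D ^ 3 * cB t)

/-- the quotient of `twist D t` by the point `(D e, 0)`: `y² = x³ - 6 D e x² + D² (9 e² - 4 N²) x =
x (x - D (3 e + 2 N)) (x - D (3 e - 2 N))` -/
def quotient (D : ℤ) (t : ℤ × ℤ) : WeierstrassCurve ℚ :=
  ⟨0, -6 * (D : ℚ) * (t.1 : ℚ), 0, (D : ℚ) ^ 2 * (9 * (t.1 : ℚ) ^ 2 - 4 * (t.2 : ℚ) ^ 2), 0⟩

/-- the proportion of the curves of `S` among the curves of height at most `Z` -/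
noncomputable def proportion (S : Set (ℤ × ℤ)) (Z : ℕ) : ℝ :=
  ((Fam Z ∩ S).ncard : ℝ) / (Fam Z).ncard

/-- the elements of the `2 ^ ∞`-Selmer group killed by `2 ^ j` -/
def tor (W : WeierstrassCurve ℚ) (j : ℕ) : Set (SelInf W) := {x | (2 ^ j) • x = 0}

/-- the rank -/
noncomputable def rank (W : WeierstrassCurve ℚ) : ℕ := Module.finrank ℤ W.toAffine.Point

/-- `log log Z` -/
noncomputable def loglog (Z : ℕ) : ℝ := Real.log (Real.log Z)

/-- the normalised deviation of the binary logarithm of the order of `Sel_{2 ^ ∞}(W)[2 ^ j]` -/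
noncomputable def dev (Z : ℕ) (j : ℕ) (W : WeierstrassCurve ℚ) : ℝ :=
  (Real.logb 2 (tor W j).ncard - 3 / 2 * loglog Z) / √(loglog Z)

/-- The joint distribution function of the `n` variables `(3 / 2) G_0 + (1 / 2) G_l`, where
`G_0, G_1, …, G_n` are independent standard Gaussian variables: jointly Gaussian, of variance `5 / 2`
and of covariance `9 / 4`. -/
noncomputable def G {n : ℕ} (x : Fin n → ℝ) : ℝ :=
  (stdGaussian (EuclideanSpace ℝ (Option (Fin n)))).real
    {w | ∀ l, 3 / 2 * w none + 1 / 2 * w (some l) ≤ x l}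

section proof

open Pool.Agent.R421.EK (Fht Hb Cc FM fht_fin mn_lim mn_zero mn_tight mn_minimal marg Mn disc_iff Oks
  fam_sel full_sel Shq)

open Pool.Agent.R431.NO (OkS)

lemma fam_eq (Z : ℕ) : Fam Z = {t | Fht (1, 1) Z t ∧ Mn t} := by
  ext t
  unfold Fam Fht Hb
  rw [Set.mem_ofPred_eq, Set.mem_ofPred_eq]
  have h := disc_iff t.1 t.2
  have hm : Mn t ↔ ∀ p : ℕ, p.Prime → ¬ ((p : ℤ) ^ 4 ∣ cA t ∧ (p : ℤ) ^ 6 ∣ cB t) := mn_minimal t
  constructor
  · rintro ⟨h1, h4, h2, h3⟩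
    refine ⟨⟨⟨?_, ?_⟩, h.1 h1⟩, hm.2 h4⟩
    · change ((1 : ℕ) : ℤ) * |cA t| ^ 3 ≤ Z
      push_cast
      linarith
    · change ((1 : ℕ) : ℤ) * cB t ^ 2 ≤ Z
      rw [sq_abs] at h3
      push_cast
      linarith
  · rintro ⟨⟨⟨h2, h3⟩, h1⟩, h4⟩
    refine ⟨h.2 h1, hm.1 h4, ?_, ?_⟩
    · have h2' : ((1 : ℕ) : ℤ) * |cA t| ^ 3 ≤ Z := h2
      push_cast at h2'
      linarith
    · have h3' : ((1 : ℕ) : ℤ) * cB t ^ 2 ≤ Z := h3
      push_cast at h3'
      rw [sq_abs]
      linarith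

lemma cc : Cc (1, 1) := ⟨le_rfl, by norm_num, le_rfl, by norm_num⟩

lemma prop_eq (S : Set (ℤ × ℤ)) (Z : ℕ) :
    proportion S Z = (FM (1, 1) Z S : ℝ) / (FM (1, 1) Z Set.univ : ℝ) := by
  unfold proportion FM
  have e1 : {t : ℤ × ℤ | (Fht (1, 1) Z t ∧ Mn t) ∧ t ∈ S} = Fam Z ∩ S := by
    rw [fam_eq]
    rfl
  have e2 : {t : ℤ × ℤ | (Fht (1, 1) Z t ∧ Mn t) ∧ t ∈ (Set.univ : Set (ℤ × ℤ))} = Fam Z := by
    rw [fam_eq]
    ext t
    simp
  rw [e1, e2]

lemma prop_mono {S S' : Set (ℤ × ℤ)} (h : S ⊆ S') (Z : ℕ) : proportion S Z ≤ proportion S' Z := by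
  unfold proportion
  refine div_le_div_of_nonneg_right ?_ (Nat.cast_nonneg _)
  have hfin : (Fam Z ∩ S').Finite := by
    refine ((fht_fin cc Z).subset ?_)
    intro t ht
    have := ht.1
    rw [fam_eq] at this
    exact this.1
  exact_mod_cast Set.ncard_le_ncard (Set.inter_subset_inter_right _ h) hfin

lemma prop_nonneg (S : Set (ℤ × ℤ)) (Z : ℕ) : 0 ≤ proportion S Z := by
  unfold proportion
  positivity

/-- the bounds for the statistic -/
lemma bd (D : ℤ) (j R : ℕ) (hj : 1 ≤ j) (e N : ℤ) (S : ℝ)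
    (h : OkS (S - R) (S + R) R (D * (3 * e + 2 * N), D * (3 * e - 2 * N))) :
    (tor (twist D (e, N)) j).Finite ∧
      |Real.logb 2 (tor (twist D (e, N)) j).ncard - S| ≤ R + ((R + 1 : ℕ) : ℝ) * j +
        ((R + 2 : ℕ) : ℝ) * j := by
  obtain ⟨-, -, -, k⟩ := fam_sel h
  obtain ⟨k1, k2, k3⟩ := k j hj
  have hR : (0 : ℝ) ≤ R := Nat.cast_nonneg _
  have hj0 : (0 : ℝ) ≤ j := Nat.cast_nonneg _
  refine ⟨k1, ?_⟩
  have k2' : S - R ≤ Real.logb 2 (tor (twist D (e, N)) j).ncard := k2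
  have k3' : Real.logb 2 (tor (twist D (e, N)) j).ncard ≤
    S + R + ((R + 1 : ℕ) : ℝ) * j + ((R + 2 : ℕ) : ℝ) * j := k3
  have p1 : 0 ≤ ((R + 1 : ℕ) : ℝ) * j := by positivity
  have p2 : 0 ≤ ((R + 2 : ℕ) : ℝ) * j := by positivity
  rw [abs_le]
  constructor <;> linarith

lemma quot_eq (D : ℤ) (t : ℤ × ℤ) : quotient D t =
    Pool.Agent.TH841.PT.EQ (D * (3 * t.1 + 2 * t.2)) (D * (3 * t.1 - 2 * t.2)) := by
  unfold quotient Pool.Agent.TH841.PT.EQ
  congr 1
  · push_cast
    ring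
  · push_cast
    ring

end proof

open Pool.Agent.R421.EK (mn_lim mn_zero mn_tight marg fam_sel full_sel FM)

/-- **Theorem.** Let `D_1, …, D_n`, `n ≥ 1`, be nonzero integers such that no product `D_l D_m`,
`l ≠ m`, is a square (for example `n = 1` and `D_1 = 1`). For the elliptic curves `E` over `ℚ` with a
rational cyclic subgroup of order four, up to isomorphism, ordered by height:
* for all `j_l ≥ 1` and real numbers `x_l` the proportion of the curves for which, for all `l`, the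
  group `Sel_{2 ^ ∞}(E^{D_l})[2 ^ j_l]` is finite and the binary logarithm of its order is at most
  `(3 / 2) log log Z + x_l √(log log Z)` tends to `G x`;
* for every `l` and every abelian group `M` with finitely many elements of order dividing two, the
  density of the curves such that `Sel_{2 ^ ∞}(E^{D_l})` is isomorphic to `M` is zero;
* for every `ε > 0` there is an `R` such that for all but a proportion `ε` of the curves of height at
  most `Z`, `Z ≥ Z₀`, for all `l`, the rank of `E^{D_l}` is at most `R`, the order of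
  `Sel_{2 ^ ∞}(E^{D_l})[2 ^ j]` is at most `C 2 ^ (R j)` for all `j` (so that the corank is at most
  `R`), and for the quotient of `E^{D_l}` by its point of order two the order of the group
  `Sel_{2 ^ ∞}[2 ^ j]` is at most `2 ^ (R j)` for all `j`. -/
theorem result (n : ℕ) (hn : 0 < n) (D : Fin n → ℤ) (hD : ∀ l, D l ≠ 0)
    (hDD : ∀ l m, l ≠ m → ∀ r : ℤ, r ^ 2 ≠ D l * D m) :
    (∀ j : Fin n → ℕ, (∀ l, 1 ≤ j l) → ∀ x : Fin n → ℝ, Tendsto (fun Z : ℕ => proportion
      {t | (∀ l, (tor (twist (D l) t) (j l)).Finite) ∧ ∀ l, dev Z (j l) (twist (D l) t) ≤ x l} Z)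
      atTop (𝓝 (G x))) ∧
    (∀ (l : Fin n) (M : Type) [AddCommGroup M], {x : M | 2 • x = 0}.Finite →
      Tendsto (proportion {t | Nonempty (SelInf (twist (D l) t) ≃+ M)}) atTop (𝓝 0)) ∧
    ∀ ε : ℝ, 0 < ε → ∃ R Z₀ : ℕ, ∀ Z : ℕ, Z₀ ≤ Z → 1 - ε ≤ proportion
      {t | ∀ l, rank (twist (D l) t) ≤ R ∧
        (∃ C : ℕ, ∀ j, 1 ≤ j → (tor (twist (D l) t) j).Finite ∧
          (tor (twist (D l) t) j).ncard ≤ C * 2 ^ (R * j)) ∧
        ∀ j, 1 ≤ j → (tor (quotient (D l) t) j).Finite ∧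
          (tor (quotient (D l) t) j).ncard ≤ 2 ^ (R * j)} Z := by
  refine ⟨fun j hj x => ?_, fun l M _ hM => ?_, fun ε hε => ?_⟩
  · have h := mn_lim ⟨0, hn⟩ (1, 1) cc D hD hDD
      (fun l e N => Real.logb 2 (tor (twist (D l) (e, N)) (j l)).ncard)
      (fun l e N => (tor (twist (D l) (e, N)) (j l)).Finite)
      (fun R => by
        refine ⟨R + ((R + 1 : ℕ) : ℝ) * (∑ l, j l : ℕ) + ((R + 2 : ℕ) : ℝ) * (∑ l, j l : ℕ),
          fun l e N S hS => ?_⟩
        refine (bd (D l) (j l) R (hj l) e N S hS).2.trans ?_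
        have h1 : ((j l : ℕ) : ℝ) ≤ ((∑ l, j l : ℕ) : ℝ) := by
          have := Finset.single_le_sum (f := j) (fun _ _ => Nat.zero_le _) (Finset.mem_univ l)
          exact_mod_cast this
        have h2 : ((R + 1 : ℕ) : ℝ) * (j l : ℕ) ≤ ((R + 1 : ℕ) : ℝ) * ((∑ l, j l : ℕ) : ℝ) :=
          mul_le_mul_of_nonneg_left h1 (Nat.cast_nonneg _)
        have h3 : ((R + 2 : ℕ) : ℝ) * (j l : ℕ) ≤ ((R + 2 : ℕ) : ℝ) * ((∑ l, j l : ℕ) : ℝ) :=
          mul_le_mul_of_nonneg_left h1 (Nat.cast_nonneg _)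
        linarith)
      (fun R l e N S hS => (bd (D l) (j l) R (hj l) e N S hS).1) x
    rw [marg] at h
    refine h.congr fun Z => ?_
    rw [prop_eq]
    rfl
  · have h := mn_zero (1, 1) cc (D l) (hD l)
      (fun e N => Real.logb 2 (tor (twist (D l) (e, N)) 1).ncard)
      (fun e N => (tor (twist (D l) (e, N)) 1).Finite)
      (fun R => ⟨R + ((R + 1 : ℕ) : ℝ) * (1 : ℕ) + ((R + 2 : ℕ) : ℝ) * (1 : ℕ), fun e N S hS =>
        (bd (D l) 1 R le_rfl e N S hS).2⟩)
      (fun R e N S hS => (bd (D l) 1 R le_rfl e N S hS).1)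
      (Real.logb 2 ({x : M | 2 • x = 0}.ncard))
    have h' : Tendsto (proportion {t : ℤ × ℤ | (tor (twist (D l) (t.1, t.2)) 1).Finite ∧
        Real.logb 2 (tor (twist (D l) (t.1, t.2)) 1).ncard ≤
          Real.logb 2 ({x : M | 2 • x = 0}.ncard)}) atTop (𝓝 0) := by
      refine h.congr fun Z => ?_
      rw [prop_eq]
    refine squeeze_zero (fun Z => prop_nonneg _ Z) (fun Z => prop_mono ?_ Z) h'
    rintro t ⟨φ⟩
    have e : tor (twist (D l) t) 1 = φ ⁻¹' {x : M | 2 • x = 0} := by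
      ext y
      unfold tor
      rw [Set.mem_preimage, Set.mem_ofPred_eq, Set.mem_ofPred_eq, pow_one, ← map_nsmul,
        map_eq_zero_iff _ φ.injective]
    have e1 : (tor (twist (D l) t) 1).Finite := by
      rw [e]
      exact hM.preimage φ.injective.injOn
    have e2 : (tor (twist (D l) t) 1).ncard = {x : M | 2 • x = 0}.ncard := by
      rw [e]
      exact Set.ncard_preimage_of_injective_subset_range φ.injective
        (fun x _ => ⟨φ.symm x, φ.apply_symm_apply x⟩)
    refine ⟨e1, ?_⟩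
    change Real.logb 2 (tor (twist (D l) t) 1).ncard ≤ _
    rw [e2]
  · obtain ⟨R, Y0, h⟩ := mn_tight ⟨0, hn⟩ (1, 1) cc D hD hDD ε hε
    refine ⟨2 * R + 3, Y0, fun Z hZ => ?_⟩
    obtain ⟨h1, h2⟩ := h Z hZ
    have h3 := h2 {t | ∀ l, rank (twist (D l) t) ≤ 2 * R + 3 ∧
        (∃ C : ℕ, ∀ j, 1 ≤ j → (tor (twist (D l) t) j).Finite ∧
          (tor (twist (D l) t) j).ncard ≤ C * 2 ^ ((2 * R + 3) * j)) ∧
        ∀ j, 1 ≤ j → (tor (quotient (D l) t) j).Finite ∧
          (tor (quotient (D l) t) j).ncard ≤ 2 ^ ((2 * R + 3) * j)} (fun t ht l => by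
        obtain ⟨S, hS⟩ := ht (0, l)
        have hS' : Pool.Agent.R431.NO.OkS (S - R) (S + R) R
          (D l * (3 * t.1 + 2 * t.2), D l * (3 * t.1 - 2 * t.2)) := hS
        obtain ⟨k1, -, -, k4⟩ := fam_sel hS'
        obtain ⟨-, -, -, m4⟩ := full_sel hS'
        refine ⟨?_, ?_, fun j hj => ?_⟩
        · have : rank (twist (D l) t) ≤ R := k1
          omega
        · obtain ⟨C, hC⟩ := exists_nat_ge ((2 : ℝ) ^ (S + R))
          refine ⟨C, fun j hj => ?_⟩
          obtain ⟨a1, -, a3⟩ := k4 j hj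
          refine ⟨a1, ?_⟩
          have a3' : Real.logb 2 (tor (twist (D l) t) j).ncard ≤
            S + R + ((R + 1 : ℕ) : ℝ) * j + ((R + 2 : ℕ) : ℝ) * j := a3
          have hpos : (0 : ℝ) < (tor (twist (D l) t) j).ncard := by
            have a1' : (tor (twist (D l) t) j).Finite := a1
            have : 0 < (tor (twist (D l) t) j).ncard := by
              rw [Set.ncard_pos a1']
              exact ⟨0, smul_zero _⟩
            exact_mod_cast this
          rw [Real.logb_le_iff_le_rpow (by norm_num) hpos] at a3'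
          have e1 : S + R + ((R + 1 : ℕ) : ℝ) * j + ((R + 2 : ℕ) : ℝ) * j =
              (S + R) + (((2 * R + 3) * j : ℕ) : ℝ) := by
            push_cast
            ring
          rw [e1, Real.rpow_add (by norm_num), Real.rpow_natCast] at a3'
          have a4 : ((tor (twist (D l) t) j).ncard : ℝ) ≤ C * 2 ^ ((2 * R + 3) * j) :=
            a3'.trans (mul_le_mul_of_nonneg_right hC (by positivity))
          exact_mod_cast a4
        · obtain ⟨b1, b2⟩ := m4 j hj
          rw [quot_eq]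
          refine ⟨b1, b2.trans (Nat.pow_le_pow_right (by norm_num) ?_)⟩
          exact Nat.mul_le_mul_right _ (by omega))
    rw [prop_eq, le_div_iff₀ (by exact_mod_cast h1)]
    exact h3

end Pool.Agent.Results.MP_a3f657_nt.SelmerInfFourIsogeny
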